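import Pool.Agent.helper55.VDI.SpecB1
import Pool.Agent.helper32.VD.EG0

/-!
# Project INF (MP_07c750_an): row `vdi:RHB`, the quotient of the densities
-/

set_option autoImplicit false

open scoped ContDiff Topology InnerProductSpace ComplexConjugate ENNReal
open MeasureTheory Filter Set

namespace Pool.Agent.VDI

open Pool.Agent.VD
open Pool.Agent.VQ (CH KZ PS perZ cmZ)
open Pool.Agent.RPQ (IsOp)
open Pool.Agent.VDA (STP FB FR FT nY OY OA)
open Pool.Agent.VDE (FDX)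

noncomputable section

lemma RHB_sqrt {t : ℝ} (ht : 0 ≤ t) : |Real.sqrt t - 1| ≤ |t - 1| := by
  have h1 : Real.sqrt t * Real.sqrt t = t := Real.mul_self_sqrt ht
  have h2 : t - 1 = (Real.sqrt t - 1) * (Real.sqrt t + 1) := by
    have h3 : (Real.sqrt t - 1) * (Real.sqrt t + 1) = Real.sqrt t * Real.sqrt t - 1 := by ring
    rw [h3, h1]
  rw [h2, abs_mul]
  have h4 : 0 ≤ Real.sqrt t := Real.sqrt_nonneg t
  have h5 : |Real.sqrt t + 1| = Real.sqrt t + 1 := abs_of_nonneg (by linarith)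
  rw [h5]
  have h6 : 0 ≤ |Real.sqrt t - 1| := abs_nonneg _
  nlinarith

lemma RHB_int {d : ℕ} {g : V d → ℝ} (hg : Continuous g) {F : Set (V d)} (hF : MeasurableSet F) {b : ℝ}
    (hb : ∀ x ∈ F, ‖x‖ ≤ b) : Integrable (F.indicator g) := by
  rw [integrable_indicator_iff hF]
  have hsub : F ⊆ Metric.closedBall (0 : V d) b := fun x hx => by
    rw [mem_closedBall_zero_iff]
    exact hb x hx
  exact (hg.continuousOn.integrableOn_compact (isCompact_closedBall (0 : V d) b)).mono_set hsub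

lemma RHB_eq {d : ℕ} {G : V d → V d →L[ℝ] V d} (h8 : ∀ f : V d → ℝ, ∫ x, f x ∂mv G = ∫ x, dens G x • f x)
    {F : Set (V d)} (hF : MeasurableSet F) (φ : V d → ℂ) :
    nn G F φ = ∫ x, F.indicator (fun z => dens G z * ‖φ z‖ ^ 2) x := by
  unfold nn
  rw [← integral_indicator hF, h8]
  refine integral_congr_ae (Eventually.of_forall fun x => ?_)
  show dens G x • F.indicator (fun z => ‖φ z‖ ^ 2) x = F.indicator (fun z => dens G z * ‖φ z‖ ^ 2) x
  by_cases hx : x ∈ F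
  · rw [indicator_of_mem hx, indicator_of_mem hx, smul_eq_mul]
  · rw [indicator_of_notMem hx, indicator_of_notMem hx, smul_zero]

lemma RHB_nn {d : ℕ} {G G' : V d → V d →L[ℝ] V d} (h8 : ∀ f : V d → ℝ, ∫ x, f x ∂mv G = ∫ x, dens G x • f x)
    (h8' : ∀ f : V d → ℝ, ∫ x, f x ∂mv G' = ∫ x, dens G' x • f x) (hd : Continuous (dens G))
    (hd' : Continuous (dens G')) {F : Set (V d)} (hF : MeasurableSet F) {b : ℝ} (hb : ∀ x ∈ F, ‖x‖ ≤ b)
    {φ : V d → ℂ} (hφ : Continuous φ) {c : ℝ} (h : ∀ x, dens G x ≤ c * dens G' x) :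
    nn G F φ ≤ c * nn G' F φ := by
  rw [RHB_eq h8 hF, RHB_eq h8' hF, ← integral_const_mul]
  refine integral_mono (RHB_int (hd.mul (hφ.norm.pow 2)) hF hb)
    ((RHB_int (hd'.mul (hφ.norm.pow 2)) hF hb).const_mul c) fun x => ?_
  show F.indicator (fun z => dens G z * ‖φ z‖ ^ 2) x ≤ c * F.indicator (fun z => dens G' z * ‖φ z‖ ^ 2) x
  by_cases hx : x ∈ F
  · rw [indicator_of_mem hx, indicator_of_mem hx, ← mul_assoc]
    exact mul_le_mul_of_nonneg_right (h x) (by positivity)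
  · rw [indicator_of_notMem hx, indicator_of_notMem hx, mul_zero]

theorem RHB_proof (hLPA : LPA_stmt) (hAHLD : AHLD_stmt) (hAMVI : AMVI_stmt) : RHB_stmt := by
  intro d Γ _ _ K k B b hK
  obtain ⟨r, hr⟩ := hK.compact.isBounded.exists_norm_le
  obtain ⟨C1, hC1, hL⟩ := hLPA d Γ K k B b r
  obtain ⟨C2, hC2, hA⟩ := hAHLD d Γ K k B r 0
  obtain ⟨C, hCdef⟩ : ∃ C : ℝ, C = C1 * C2 := ⟨_, rfl⟩
  have hC : 1 ≤ C := by rw [hCdef]; nlinarith
  refine ⟨C, 2 * C, hC, by linarith, ?_⟩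
  intro R G G' hR hG hN
  have hR2 : 2 ≤ R := by linarith
  have hR1 : 1 ≤ R := by linarith
  have hR0 : 0 < R := by linarith
  obtain ⟨-, hsm, hpos, -, hfin, -, hdet, h8, -⟩ := hAMVI d Γ K k B G hK hG
  obtain ⟨-, hsm', hpos', -, -, -, hdet', h8', -⟩ := hAMVI d Γ K k B G' hK hN.cls
  obtain ⟨-, -, -, -, hA5⟩ := hA G hK hG
  obtain ⟨q, hq⟩ : ∃ q : ℝ, q = R ^ (-LX d) := ⟨_, rfl⟩
  have hq0 : 0 ≤ q := by rw [hq]; exact Real.rpow_nonneg hR0.le _
  -- the number
  have hqs : C * q ≤ R⁻¹ / 2 := by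
    have h1 : q ≤ (R ^ 2)⁻¹ := by
      rw [hq]
      have h2 : -LX d ≤ (-2 : ℝ) := by
        unfold LX
        have h3 : (0 : ℝ) ≤ d := Nat.cast_nonneg d
        linarith
      refine (Real.rpow_le_rpow_of_exponent_le hR1 h2).trans (le_of_eq ?_)
      rw [Real.rpow_neg hR0.le]
      norm_num
    have h4 : C ≤ R / 2 := by linarith
    calc C * q ≤ (R / 2) * (R ^ 2)⁻¹ := mul_le_mul h4 h1 hq0 (by linarith)
      _ = R⁻¹ / 2 := by field_simp
  have hRi : R⁻¹ ≤ 1 := inv_le_one_of_one_le₀ hR1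
  have hRi0 : 0 < R⁻¹ := inv_pos.2 hR0
  have hqh : C * q ≤ 1 / 2 := by linarith
  have hCq0 : 0 ≤ C * q := mul_nonneg (by linarith) hq0
  -- (1)
  have h1K : ∀ x ∈ K, |dens G' x - dens G x| ≤ C * q * dens G x := by
    intro x hx
    obtain ⟨hl, -⟩ := hL R G G' x hR1 hG hN (hr x hx)
    obtain ⟨hlow, -⟩ := hA5 x (hr x hx)
    rw [abs_sub_comm]
    refine hl.trans ?_
    rw [← hq, hCdef]
    have h3 : 1 ≤ C2 * dens G x := by
      have h4 : C2 * C2⁻¹ ≤ C2 * dens G x := mul_le_mul_of_nonneg_left hlow (by linarith)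
      rwa [mul_inv_cancel₀ (by linarith)] at h4
    have h5 : 0 ≤ C1 * q := mul_nonneg (by linarith) hq0
    calc C1 * q = C1 * q * 1 := (mul_one _).symm
      _ ≤ C1 * q * (C2 * dens G x) := mul_le_mul_of_nonneg_left h3 h5
      _ = C1 * C2 * q * dens G x := by ring
  have h1 : ∀ x, |dens G' x - dens G x| ≤ C * q * dens G x := by
    intro x
    obtain ⟨γ, hγ⟩ := hK.cover x
    have h2 := h1K _ hγ
    obtain ⟨D, hD⟩ : ∃ D : ℝ, D = |(fderiv ℝ (fun y : V d => γ • y) x).det| := ⟨_, rfl⟩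
    have hD0 : 0 ≤ D := by rw [hD]; exact abs_nonneg _
    have e1 := hdet γ x
    have e2 := hdet' γ x
    rw [← hD] at e1 e2
    rw [← e1, ← e2, ← sub_mul, abs_mul, abs_of_nonneg hD0, ← mul_assoc]
    exact mul_le_mul_of_nonneg_right h2 hD0
  -- the quotient
  have ht0 : ∀ x, 0 < dens G' x / dens G x := fun x => div_pos (hpos' x) (hpos x)
  have h3 : ∀ x, |roB G G' x - 1| ≤ C * q := by
    intro x
    refine (RHB_sqrt (ht0 x).le).trans ?_
    have e : dens G' x / dens G x - 1 = (dens G' x - dens G x) / dens G x := by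
      rw [sub_div, div_self (hpos x).ne']
    rw [e, abs_div, abs_of_pos (hpos x), div_le_iff₀ (hpos x)]
    exact h1 x
  have h4 : Continuous (roB G G') :=
    (hsm'.continuous.div hsm.continuous fun x => (hpos x).ne').sqrt
  refine ⟨?_, ?_, ?_, h4, ?_, ?_⟩
  · intro x
    rw [← hq]
    exact h1 x
  · intro γ x
    unfold roB
    obtain ⟨D, hD⟩ : ∃ D : ℝ, D = |(fderiv ℝ (fun y : V d => γ • y) x).det| := ⟨_, rfl⟩
    have e1 := hdet γ x
    have e2 := hdet' γ x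
    rw [← hD] at e1 e2
    have hD0 : D ≠ 0 := by
      intro h
      rw [h, mul_zero] at e1
      exact (hpos x).ne e1
    rw [← e1, ← e2, mul_div_mul_right _ _ hD0]
  · intro x
    rw [← hq]
    exact h3 x
  · intro x
    refine ⟨Real.sqrt_pos.2 (ht0 x), ?_⟩
    unfold roB
    rw [Real.sq_sqrt (ht0 x).le, div_mul_cancel₀ _ (hpos x).ne']
  · intro F hF φ hφ
    obtain ⟨bF, hbF⟩ := hF.bdd
    have hup : ∀ x, dens G' x ≤ 2 * dens G x := by
      intro x
      have h5 := (abs_le.1 (h1 x)).2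
      have h6 := hpos x
      nlinarith
    have hdn : ∀ x, dens G x ≤ 2 * dens G' x := by
      intro x
      have h5 := (abs_le.1 (h1 x)).1
      have h6 := hpos x
      nlinarith
    refine ⟨RHB_nn (h8' ℝ) (h8 ℝ) hsm'.continuous hsm.continuous hF.meas hbF hφ hup,
      RHB_nn (h8 ℝ) (h8' ℝ) hsm.continuous hsm'.continuous hF.meas hbF hφ hdn, ?_⟩
    have hsub : F ⊆ Metric.closedBall (0 : V d) bF := fun x hx => by
      rw [mem_closedBall_zero_iff]
      exact hbF x hx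
    have hcont : Continuous fun z : V d => ((1 - roB G G' z : ℝ) : ℂ) * φ z :=
      (Complex.continuous_ofReal.comp (continuous_const.sub h4)).mul hφ
    refine EG0_nn G hfin (Metric.closedBall (0 : V d) bF) F (isCompact_closedBall _ _) hF.meas hsub
      (fun z : V d => ((1 - roB G G' z : ℝ) : ℂ) * φ z) φ hcont hφ (R ^ (-1 : ℝ)) fun z => ?_
    show ‖((1 - roB G G' z : ℝ) : ℂ) * φ z‖ ^ 2 ≤ R ^ (-1 : ℝ) * ‖φ z‖ ^ 2
    rw [norm_mul, mul_pow, Complex.norm_real, Real.norm_eq_abs]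
    refine mul_le_mul_of_nonneg_right ?_ (by positivity)
    have h5 : |1 - roB G G' z| ≤ C * q := by
      rw [abs_sub_comm]
      exact h3 z
    rw [Real.rpow_neg_one]
    calc |1 - roB G G' z| ^ 2 ≤ (C * q) ^ 2 := pow_le_pow_left₀ (abs_nonneg _) h5 2
      _ ≤ R⁻¹ := by nlinarith

end

end Pool.Agent.VDI
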